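import Pool.Agent.TH936.AW.Fin
import Pool.Agent.TH936.AW.Eps
import Pool.Agent.TH936.AW.Phi
import Pool.Agent.TH936.AW.Phi2
import Pool.Agent.TH936.AW.Reg
import Pool.Agent.TH936.AW.Fe
import Pool.Agent.TH936.AW.Wc
import Pool.Agent.TH936.AW.Ram
import Pool.Agent.TH936.AW.Gc
import Pool.Agent.TH936.AC.Bar
import Pool.Agent.TH936.AC.Dec
import Pool.Agent.TH936.AC.Line
import Pool.Agent.TH936.AC.Ori
import Pool.Agent.TH936.AC.Count
import Pool.Agent.TH936.AC.Tail
import Pool.Agent.TH936.AC.Rough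
import Pool.Agent.TH936.AC.Prd
import Pool.Agent.TH936.AC.Rank
import Pool.Agent.TH936.AC.Rbd
import Pool.Agent.TH936.AC.Cyc
import Pool.Agent.W216.CY.Div
import Pool.Agent.W287.HK.Basic
import Pool.Agent.W571.HK.Cls
import Pool.Agent.W53.HK.Fp
import Pool.Agent.W366.HK.Fpr
import Pool.Agent.W585.HK.LAT
import Pool.Agent.W692.HK.Ker
import Pool.Agent.W584.HK.CNT
import Pool.Agent.W513.HK.Divr
import Pool.Agent.W930.HK.Mob
import Pool.Agent.W856.HK.Dec
import Pool.Agent.W636.HK.Gauss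
import Pool.Agent.W348.HK.Pois
import Pool.Agent.W29.HK.Prod
import Pool.Agent.W283.HK.PW

/-!
# Central values of Hecke `L`-functions of higher weight twisted by ring class characters

`R` is the ring of integers of an imaginary quadratic field `K` of class number one, `m ≥ 2`, `ψ` a
primitive Hecke character of `K` of conductor `f` and infinity type `(2 m - 1, 0)` with
`ψ(bar I) = conj ψ(I)` (for instance the `(2 m - 1)`-th power of the Hecke character of an elliptic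
curve over `ℚ` with complex multiplication by `R`, or rather the primitive character underlying it).
For a prime number `q` prime to `f` let `K[q]` be the ring class field of conductor `q`; the nontrivial
characters of `Gal(K[q] / K)` are the ring class characters `χ` of conductor `q`: the primitive ray
class characters of conductor `(q)` that are trivial on the rational integers prime to `q`.

The functional equation relates `L(ψ χ, s)` to `L(ψ χ, 2 m - s)`, with sign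
`w (ψ((q)) / q ^ (2 m - 1)) χ(f)`, `w` being the sign of `L(ψ, s)`.  If the sign is `-1` then
`L(ψ χ, m) = 0`.  The theorem: for every `ε > 0`, every sufficiently large `q` and EVERY ring class
character `χ` of conductor `q` and of order `≥ q ^ (2/3 + ε)` with sign `+1` one has `L(ψ χ, m) ≠ 0`,
and the sum of the orders of vanishing at `s = m` of all the `L(ψ χ, s)` with sign `+1` is at most
`q ^ (2/3 + ε)` (the group `Gal(K[q] / K)` is cyclic of order `2 (q ± 1) / |Rˣ|`).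

Up to finitely many Euler factors, `L(H^(2m-1)(E^(2m-1) over K[q]), s)` is a product of shifts of
functions `L(ψ' χ, s)` with `ψ'` of type `(2 m' - 1, 0)`, `m' ≤ m`, and of their complex conjugates.

The case `m = 1` (with the details of the approach) is `MP_f50388_nt.RingClassTwists`.  Here the
function `ψ(I) / N(I) ^ (m - 1)` takes the place of `ψ` and an incomplete Gamma function that of
`exp(-x)` (project AW); that the vanishing of `L(ψ χ, m)` is invariant under the Galois group is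
`Pool.Agent.TH936.CW.equiK`.
-/

set_option autoImplicit false

open Complex

namespace Pool.Agent.Results.MP_ec4e4b_nt.AnticyclotomicTwists

/-- The norm `N(I)` of an ideal (`0` for the zero ideal, whose residue ring is infinite). -/
noncomputable def norm {R : Subring ℂ} (I : Ideal R) : ℝ := (Nat.card (R ⧸ I) : ℝ)

/-- `ψ`, a function on the ideals of `R`, is a primitive Hecke character of conductor `f` and infinity
type `(n, 0)`: it is multiplicative, vanishes exactly at the zero ideal and the ideals not prime to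
`f`, satisfies `ψ((α)) = α ^ n` for `α ≡ 1 mod f`, and this fails for every strictly larger ideal `f'`
in place of `f`.  For `n = 0` these are the primitive ray class characters of conductor `f`. -/
structure IsHecke {R : Subring ℂ} (n : ℕ) (f : Ideal R) (ψ : Ideal R → ℂ) : Prop where
  ne_bot : f ≠ ⊥
  mul : ∀ I J : Ideal R, ψ (I * J) = ψ I * ψ J
  eq_zero : ∀ I : Ideal R, ψ I = 0 ↔ (I = ⊥ ∨ ¬ IsCoprime I f)
  principal : ∀ α : R, α ≠ 0 → α - 1 ∈ f → ψ (Ideal.span {α}) = (α : ℂ) ^ n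
  primitive : ∀ f' : Ideal R, f < f' → ∃ α : R, α ≠ 0 ∧ α - 1 ∈ f' ∧ IsCoprime (Ideal.span {α}) f ∧
    ψ (Ideal.span {α}) ≠ (α : ℂ) ^ n

/-- `ψ(bar I) = conj ψ(I)` (for principal ideals) -/
def ConjSymmetric {R : Subring ℂ} (ψ : Ideal R → ℂ) : Prop :=
  ∀ α β : R, (β : ℂ) = (starRingEnd ℂ) (α : ℂ) →
    ψ (Ideal.span {β}) = (starRingEnd ℂ) (ψ (Ideal.span {α}))

/-- `χ` is a (primitive) ring class character of conductor the prime number `q`: a primitive ray class
character of conductor `(q)` that is trivial on the rational integers prime to `q`. -/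
structure IsRingClass {R : Subring ℂ} (q : ℕ) (χ : Ideal R → ℂ) : Prop where
  prime : q.Prime
  hecke : IsHecke 0 (Ideal.span {(q : R)}) χ
  int : ∀ m : ℕ, Nat.Coprime m q → χ (Ideal.span {(m : R)}) = 1

/-- `d` is the order of the character `χ`. -/
structure IsOrder {R : Subring ℂ} (χ : Ideal R → ℂ) (d : ℕ) : Prop where
  pos : 0 < d
  pow : ∀ I : Ideal R, χ I ≠ 0 → χ I ^ d = 1
  least : ∀ n : ℕ, 0 < n → (∀ I : Ideal R, χ I ≠ 0 → χ I ^ n = 1) → d ≤ n

/-- `F` is entire and `F(s) = ∑ θ(I) N(I)^(-s)` for `Re s > m + 1/2`. -/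
structure IsLFunction {R : Subring ℂ} (m : ℕ) (θ : Ideal R → ℂ) (F : ℂ → ℂ) : Prop where
  entire : Differentiable ℂ F
  series : ∀ s : ℂ, (m : ℝ) + 1 / 2 < s.re →
    HasSum (fun I : Ideal R => θ I * (norm I : ℂ) ^ (-s)) (F s)

/-- The functional equation with conductor `𝔣` and sign `W`: with `A = √(|D| N(𝔣)) / 2π`, where
`√|D| = 2 Im ω`, and `Λ(s) = A ^ s Γ(s) F(s)`, one has `Λ(s) = W Λ(2 m - s)` for
`0 < Re s < 2 m`. -/
def FunctionalEquation {R : Subring ℂ} (m : ℕ) (ω : ℂ) (𝔣 : Ideal R) (W : ℂ) (F : ℂ → ℂ) : Prop :=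
  ∀ s : ℂ, 0 < s.re → s.re < 2 * m →
    ((ω.im * Real.sqrt (norm 𝔣) / Real.pi : ℝ) : ℂ) ^ s * Complex.Gamma s * F s =
      W * (((ω.im * Real.sqrt (norm 𝔣) / Real.pi : ℝ) : ℂ) ^ (2 * (m : ℂ) - s) *
        Complex.Gamma (2 * (m : ℂ) - s) * F (2 * (m : ℂ) - s))

/-- the sign of `L(ψ χ, s)`, where `w` is the sign of `L(ψ, s)` -/
noncomputable def sign {R : Subring ℂ} (m : ℕ) (w : ℂ) (f : Ideal R) (ψ : Ideal R → ℂ) (q : ℕ)
    (χ : Ideal R → ℂ) : ℂ := w * (ψ (Ideal.span {(q : R)}) / (q : ℂ) ^ (2 * m - 1)) * χ f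

/-- the ring class characters of conductor `q` for which the sign is `+1` -/
def plus {R : Subring ℂ} (m : ℕ) (w : ℂ) (f : Ideal R) (ψ : Ideal R → ℂ) (q : ℕ) :
    Set (Ideal R → ℂ) := {χ | IsRingClass q χ ∧ sign m w f ψ q χ = 1}

open Pool.Agent.W192.HK in
theorem isHecke_iff {R : Subring ℂ} (n : ℕ) (f : Ideal R) (ψ : Ideal R → ℂ) :
    IsHecke n f ψ ↔ HC n f ψ :=
  ⟨fun h => ⟨h.ne_bot, h.mul, h.eq_zero, h.principal, h.primitive⟩,
    fun h => ⟨h.ne, h.mul, h.zero, h.princ, h.prim⟩⟩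

open Pool.Agent.W192.HK Pool.Agent.TH936.AC in
theorem isRingClass_iff {R : Subring ℂ} (q : ℕ) (χ : Ideal R → ℂ) :
    IsRingClass q χ ↔ HC 0 (sp (q : R)) χ ∧ RG q χ := by
  constructor
  · intro h
    have h1 : HC 0 (sp (q : R)) χ := (isHecke_iff _ _ _).1 h.hecke
    exact ⟨h1, ⟨h.prime, h1.rc, h.int⟩⟩
  · rintro ⟨h1, h2⟩
    exact ⟨h2.prime, (isHecke_iff _ _ _).2 h1, h2.int⟩

/-- **Main theorem.** Let `R = ℤ + ℤ ω` be a subring of `ℂ` that is a lattice and a principal ideal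
domain, `m ≥ 2` and `ψ` a primitive Hecke character of conductor `f` and infinity type `(2 m - 1, 0)`
on the ideals of `R` with `ψ(bar I) = conj ψ(I)`.  There are `w = ±1`, a function `L₀` and functions
`L χ` such that `L₀` is `L(ψ, s)` and has the functional equation with sign `w`, and for every ring
class character `χ` of prime conductor `q` prime to `f` the function `L χ` is `L(ψ χ, s)`, it has
finite order at `s = m`, its functional equation has the sign
`w (ψ((q)) / q ^ (2 m - 1)) χ(f) = ±1`, and `L χ m = 0` if this sign is `-1`.  For every `ε > 0` there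
is `q₀` such that for `q ≥ q₀` every `χ` of order at least `q ^ (2/3 + ε)` with sign `+1` has
`L χ m ≠ 0`, and the sum of the orders at `s = m` of the `L χ` over all ring class characters `χ` of
conductor `q` with sign `+1` is at most `q ^ (2/3 + ε)`. -/
theorem result (R : Subring ℂ) (ω : ℂ) (hω : 0 < ω.im)
    (hR : ∀ z : ℂ, z ∈ R ↔ ∃ x y : ℤ, z = x + y * ω) (hpid : IsPrincipalIdealRing R)
    (m : ℕ) (hm : 2 ≤ m) (f : Ideal R) (ψ : Ideal R → ℂ) (hψ : IsHecke (2 * m - 1) f ψ)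
    (hc : ConjSymmetric ψ) :
    ∃ (w : ℂ) (L₀ : ℂ → ℂ) (L : (Ideal R → ℂ) → ℂ → ℂ),
      (w = 1 ∨ w = -1) ∧ IsLFunction m ψ L₀ ∧ FunctionalEquation m ω f w L₀ ∧
      (∀ (q : ℕ) (χ : Ideal R → ℂ), IsRingClass q χ → IsCoprime f (Ideal.span {(q : R)}) →
        IsLFunction m (fun I => ψ I * χ I) (L χ) ∧ analyticOrderAt (L χ) m ≠ ⊤ ∧
        FunctionalEquation m ω (f * Ideal.span {(q : R)}) (sign m w f ψ q χ) (L χ) ∧
        (sign m w f ψ q χ = 1 ∨ sign m w f ψ q χ = -1) ∧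
        (sign m w f ψ q χ = -1 → L χ m = 0)) ∧
      ∀ ε : ℝ, 0 < ε → ∃ q₀ : ℝ,
        (∀ (q : ℕ) (χ : Ideal R → ℂ), IsRingClass q χ → IsCoprime f (Ideal.span {(q : R)}) →
          q₀ ≤ q → ∀ d : ℕ, IsOrder χ d → (q : ℝ) ^ (2 / 3 + ε) ≤ d → sign m w f ψ q χ = 1 →
          L χ m ≠ 0) ∧
        ∀ q : ℕ, q.Prime → IsCoprime f (Ideal.span {(q : R)}) → q₀ ≤ q →
          (plus m w f ψ q).Finite ∧
          ∑ᶠ χ ∈ plus m w f ψ q, (analyticOrderNatAt (L χ) m : ℝ) ≤ (q : ℝ) ^ (2 / 3 + ε) := by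
  classical
  obtain ⟨e, rfl⟩ : ∃ e : ℕ, m = e + 1 := ⟨m - 1, by omega⟩
  have he1 : 1 ≤ e + 1 := by omega
  have hbasic := Pool.Agent.W287.HK.h_basic
  have hcls := Pool.Agent.W571.HK.h_cls hbasic
  have hfp := Pool.Agent.W53.HK.h_fp hbasic hcls
  have hfpr := Pool.Agent.W366.HK.h_fpr hbasic hcls
  have hlat := Pool.Agent.W585.HK.h_lat hbasic
  have hker := Pool.Agent.W692.HK.h_ker hbasic hcls hfpr
  have hcnt := Pool.Agent.W584.HK.h_cnt hbasic hcls hfpr hlat hker
  have hdivr := Pool.Agent.W513.HK.h_divr hbasic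
  have hmob := Pool.Agent.W930.HK.h_mob
  have hdiv := Pool.Agent.W216.CY.t_div
  have hdec := Pool.Agent.W856.HK.h_dec hbasic
  have hgauss := Pool.Agent.W636.HK.h_gauss hbasic hfp
  have hpois := Pool.Agent.W348.HK.h_pois hbasic
  have htheta := Pool.Agent.TH936.HK.h_theta hbasic hfp hdec hgauss hpois hcnt
  have hafe := Pool.Agent.TH936.HK.h_afe hbasic hfp hcnt hgauss htheta
  have hprod := Pool.Agent.W29.HK.h_prod hbasic hfp
  have hpw := Pool.Agent.W283.HK.PW.h_pw hbasic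
  -- project AC
  have abar := Pool.Agent.TH936.AC.a_bar hbasic
  have adec := Pool.Agent.TH936.AC.a_dec hbasic abar
  have aeps := Pool.Agent.TH936.AW.b_eps hbasic hfp abar
  have aline := Pool.Agent.TH936.AC.a_line hbasic hfpr hker abar
  have aori := Pool.Agent.TH936.AC.a_ori abar
  have acount := Pool.Agent.TH936.AC.a_count hbasic hcnt hdivr hfpr abar aline aori
  have arcount := Pool.Agent.TH936.AC.a_rcount hbasic hcnt hfpr abar aline aori
  have atail := Pool.Agent.TH936.AC.a_tail hbasic hcnt acount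
  have arough := Pool.Agent.TH936.AC.a_rough hbasic hcnt arcount
  have aprod := Pool.Agent.TH936.AC.a_prod hbasic abar
  have aphi := Pool.Agent.TH936.AW.b_phi' hbasic abar aeps aprod Pool.Agent.TH936.AC.a_rank
  have aphi2 := Pool.Agent.TH936.AW.b_phi2 hbasic hdivr abar aprod
  have areg := Pool.Agent.TH936.AW.b_reg hbasic hcnt hfpr abar adec aprod aphi2
  have arbd := Pool.Agent.TH936.AC.a_rbd hmob
  have afe := Pool.Agent.TH936.AW.b_fe hbasic hfp hcnt hgauss htheta hafe abar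
  have awc := Pool.Agent.TH936.AW.b_wc hbasic hcls hfp hpw abar
  have acyc := Pool.Agent.TH936.AC.a_cyc hbasic hfpr abar
  have aram := Pool.Agent.TH936.AW.b_ram hbasic hfp abar
  -- the data
  have hQ : Pool.Agent.TH936.AC.QP R ω := ⟨⟨hω, hR, inferInstance⟩, hpid⟩
  have hψ' : Pool.Agent.W192.HK.HC (2 * (e + 1) - 1) f ψ := (isHecke_iff _ _ _).1 hψ
  have hψe : Pool.Agent.W192.HK.HC (2 * e + 1) f ψ := hψ'
  obtain ⟨CV, hV⟩ := Pool.Agent.TH936.AW.b_vk (e + 1) he1
  have hcs : Pool.Agent.TH936.AC.CS ψ := by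
    intro I
    obtain ⟨α, hα⟩ : ∃ α : R, I = Ideal.span {α} := (hpid.principal I).principal
    obtain ⟨k1, -, -, -, -, k6, -⟩ := abar R ω hQ
    obtain ⟨β, hβ⟩ := k1 α
    have e1 : Pool.Agent.TH936.AC.bar I = Ideal.span {β} := by
      rw [hα]
      exact k6 α β hβ
    rw [e1, hα]
    exact hc α β hβ
  have hram := aram R ω hQ (e + 1) he1 f ψ hψ' hcs
  obtain ⟨w, hw, ⟨L₀, m1, m2, m3⟩, hdata⟩ := Pool.Agent.TH936.AW.data hbasic hfpr hprod hpw abar afe
    awc hQ e hψe hcs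
  have hequi := Pool.Agent.TH936.CW.equiK hbasic hfp hcnt hdec hafe hcls hprod hpw hQ.qr hψe
  obtain ⟨K, hK, hord⟩ := Pool.Agent.TH936.CW.ordK_le hbasic hfp hcnt hgauss htheta hcls hQ.qr e
  have hgc : Pool.Agent.TH936.AW.GC f (Pool.Agent.TH936.AW.gn (e + 1) ψ) :=
    Pool.Agent.TH936.AW.b_gc hbasic hfp R ω hQ (e + 1) he1 f ψ hψ'
  have hgcs := Pool.Agent.TH936.AW.cs_gn abar hQ (m := e + 1) hcs
  have hcore := fun (M : ℕ) (hM : 1 ≤ M) (ε : ℝ) (hε : 0 < ε) =>
    Pool.Agent.TH936.AW.core hdiv hbasic hcnt hmob abar areg aphi aphi2 atail arough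
      Pool.Agent.TH936.AC.a_mert arbd hQ hV hgc hgcs hram M hM ε hε
  have hnonv := Pool.Agent.TH936.AW.nonv e hcore hequi w
    (fun q χ hχ hrg hcop d hd a ha => by
      obtain ⟨-, F, -, -, -, k⟩ := hdata q χ hχ hrg hcop
      exact k d hd a ha)
  -- a function of `χ` only
  obtain ⟨Lx, hLx⟩ : ∃ Lx : (Ideal R → ℂ) → ℂ → ℂ, ∀ (χ : Ideal R → ℂ) (F : ℂ → ℂ),
      Pool.Agent.TH936.CW.IsLK e ψ χ F → Lx χ = F := by
    refine ⟨fun χ => if h : ∃ F, Pool.Agent.TH936.CW.IsLK e ψ χ F then Classical.choose h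
      else fun _ => 0, fun χ F hF => ?_⟩
    have h : ∃ F, Pool.Agent.TH936.CW.IsLK e ψ χ F := ⟨F, hF⟩
    have e1 := Classical.choose_spec h
    show (if h : ∃ F, Pool.Agent.TH936.CW.IsLK e ψ χ F then Classical.choose h else fun _ => 0) = F
    rw [dif_pos h]
    exact Pool.Agent.TH936.CM.entire_eq e1.diff hF.diff (((e + 1 : ℕ) : ℝ) + 1 / 2) fun z hz =>
      (e1.sum z hz).unique (hF.sum z hz)
  have hL1 : ∀ (q : ℕ) (χ : Ideal R → ℂ), Pool.Agent.W192.HK.HC 0 (Ideal.span {(q : R)}) χ →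
      Pool.Agent.TH936.AC.RG q χ → IsCoprime f (Ideal.span {(q : R)}) →
      Pool.Agent.TH936.CW.IsLK e ψ χ (Lx χ) := by
    intro q χ hχ hrg hcop
    obtain ⟨-, F, k, -⟩ := hdata q χ hχ hrg hcop
    rw [hLx χ F k]
    exact k
  have hordc : ∀ (q : ℕ) (χ : Ideal R → ℂ), Pool.Agent.W192.HK.HC 0 (Ideal.span {(q : R)}) χ →
      Pool.Agent.TH936.AC.RG q χ → IsCoprime f (Ideal.span {(q : R)}) →
      analyticOrderAt (Lx χ) ((e + 1 : ℕ) : ℂ) ≠ ⊤ ∧ (analyticOrderNatAt (Lx χ) ((e + 1 : ℕ) : ℂ) : ℝ) ≤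
        K * (1 + Real.log (Pool.Agent.W192.HK.nm (f * Ideal.span {(q : R)}))) := by
    intro q χ hχ hrg hcop
    have g2 := hL1 q χ hχ hrg hcop
    exact hord _ (fun I => ψ I * χ I) (hprod R ω hQ.qr (2 * e + 1) f _ ψ χ hψe hχ hcop) _ g2.diff g2.sum
  refine ⟨w, L₀, Lx, hw, ⟨m1, m2⟩, m3, fun q χ hχ hcop => ?_, fun ε hε => ?_⟩
  · obtain ⟨h1, h2⟩ := (isRingClass_iff q χ).1 hχ
    obtain ⟨k1, F, k2, k3, k4, -⟩ := hdata q χ h1 h2 hcop
    have e1 := hLx χ F k2
    have e2 := hL1 q χ h1 h2 hcop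
    refine ⟨⟨e2.diff, e2.sum⟩, (hordc q χ h1 h2 hcop).1, ?_, k1, fun h3 => ?_⟩
    · rw [e1]
      exact k3
    · have h4 : w * (ψ (Ideal.span {(q : R)}) / (q : ℂ) ^ (2 * e + 1)) * χ f = -1 := h3
      rw [e1, k4, h4]
      ring
  · obtain ⟨q1, hq1⟩ := hnonv ε hε
    obtain ⟨q2, hq2⟩ := Pool.Agent.TH936.AW.rank ((e + 1 : ℕ) : ℂ) hdiv hbasic hfpr acyc hQ hψ'.ne Lx
      (fun q χ => w * (ψ (Ideal.span {(q : R)}) / (q : ℂ) ^ (2 * e + 1)) * χ f = 1)
      (fun ε hε => by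
        obtain ⟨q0, hq0⟩ := hnonv ε hε
        exact ⟨q0, fun q χ hχ hrg hcop hq d hd hdq hS =>
          hq0 q χ hχ hrg hcop hq d hd hdq hS _ (hL1 q χ hχ hrg hcop)⟩)
      (fun q χ hχ hrg hcop => (hL1 q χ hχ hrg hcop).diff) hK
      (fun q χ hχ hrg hcop => (hordc q χ hχ hrg hcop).2) ε hε
    refine ⟨max q1 q2, fun q χ hχ hcop hq d hd hdq hS => ?_, fun q hq hcop hq0 => ?_⟩
    · obtain ⟨h1, h2⟩ := (isRingClass_iff q χ).1 hχ
      exact hq1 q χ h1 h2 hcop ((le_max_left _ _).trans hq) d ⟨hd.pos, hd.pow, hd.least⟩ hdq hS _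
        (hL1 q χ h1 h2 hcop)
    · have e1 : plus (e + 1) w f ψ q = {χ : Ideal R → ℂ |
          Pool.Agent.W192.HK.HC 0 (Ideal.span {(q : R)}) χ ∧ Pool.Agent.TH936.AC.RG q χ ∧
            w * (ψ (Ideal.span {(q : R)}) / (q : ℂ) ^ (2 * e + 1)) * χ f = 1} := by
        ext χ
        constructor
        · rintro ⟨h1, h2⟩
          obtain ⟨h3, h4⟩ := (isRingClass_iff q χ).1 h1
          exact ⟨h3, h4, h2⟩
        · rintro ⟨h1, h2, h3⟩
          exact ⟨(isRingClass_iff q χ).2 ⟨h1, h2⟩, h3⟩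
      rw [e1]
      exact hq2 q hq hcop ((le_max_right _ _).trans hq0)

end Pool.Agent.Results.MP_ec4e4b_nt.AnticyclotomicTwists
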