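import Pool.Agent.TH345.ET.S

/-!
# Algebraic independence of L-values of different motives on the edge

Polarised Chow motives over `ℚ` (over a number field, after restriction of scalars) have `ℓ`-adic
realisations which are continuous representations of the Galois group, pure of weight `-1` outside a
finite set of primes; their L-functions converge absolutely for `Re s > 1/2`, and the centre `s = 0`
lies beyond the edge `Re s = 1/2`.  The theorem concerns arbitrary countable families of pairwise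
non-isomorphic irreducible representations of the same weight `w` and the boundary values of their
L-functions on the edge `Re s = 1 + w/2`, with no assumption of continuation.
-/

set_option autoImplicit false

namespace Pool.Agent.Results.MP_ec4e4b_nt.EdgeAlgebraicIndependence

open Filter Topology MeasureTheory

/-- The elements `Φ p` of `G`, `p` prime, behave like Frobenius elements: for every finite set `S` of
primes the conjugates of the `Φ p`, `p ∉ S`, are dense in `G` (for Galois groups over `ℚ` this is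
Chebotarev's theorem). -/
def IsFrobenius {G : Type} [Group G] [TopologicalSpace G] (Φ : ℕ → G) : Prop :=
  ∀ S : Finset ℕ, Dense {g : G | ∃ p : ℕ, p.Prime ∧ p ∉ S ∧ IsConj (Φ p) g}

/-- The representation of `G` on `F^n` given by matrices. -/
noncomputable def rep {F G : Type} [Field F] [Group G] {n : ℕ}
    (ρ : G →* Matrix (Fin n) (Fin n) F) : Representation F G (Fin n → F) :=
  (Matrix.toLinAlgEquiv' : Matrix (Fin n) (Fin n) F ≃ₐ[F] _).toMonoidHom.comp ρ

/-- Outside `S` the Frobenius eigenvalues have absolute value at most `p^(w/2)` under `ι`. -/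
def HasWeight {F G : Type} [Field F] [Group G] (ι : F →+* ℂ) (Φ : ℕ → G) {n : ℕ}
    (ρ : G →* Matrix (Fin n) (Fin n) F) (S : Finset ℕ) (w : ℝ) : Prop :=
  ∀ p : ℕ, p.Prime → p ∉ S → ∀ z : ℂ, ((ρ (Φ p)).map ι).charpoly.IsRoot z →
    ‖z‖ ≤ (p : ℝ) ^ (w / 2)

open Classical in
/-- The L-function `L_S(s, ρ) = ∏_{p ∉ S} det(1 - ρ(Φ_p) p^{-s})⁻¹`. -/
noncomputable def partialL {F G : Type} [Field F] [Group G] (ι : F →+* ℂ) (Φ : ℕ → G) {n : ℕ}
    (ρ : G →* Matrix (Fin n) (Fin n) F) (S : Finset ℕ) (s : ℂ) : ℂ :=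
  ∏' p : Nat.Primes, if (p : ℕ) ∈ S then 1 else
    ((1 - (((p : ℕ) : ℂ) ^ (-s)) • (ρ (Φ p)).map ι).det)⁻¹

/-- The angle `|s - (1 + w/2 + iτ)| ≤ C (Re s - (1 + w/2))`, `Re s > 1 + w/2`. -/
def angle (w τ C : ℝ) : Set ℂ :=
  {s : ℂ | 1 + w / 2 < s.re ∧
    ‖s - (((1 + w / 2 : ℝ) : ℂ) + τ * Complex.I)‖ ≤ C * (s.re - (1 + w / 2))}

/-- The family consisting of the number `τ`, the numbers `p^{iτ}` for all primes `p`, and the numbers
`l_j(τ)`, `j ∈ J`. -/
noncomputable def numbers {J : Type} (l : J → ℝ → ℂ) (τ : ℝ) : Unit ⊕ (Nat.Primes ⊕ J) → ℂ :=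
  Sum.elim (fun _ => (τ : ℂ)) (Sum.elim (fun p => ((p : ℕ) : ℂ) ^ ((τ : ℂ) * Complex.I))
    (fun j => l j τ))

/-- **Algebraic independence of edge values of non-isomorphic motives.** -/
theorem result (F G J : Type) [Field F] [TopologicalSpace F] [IsTopologicalRing F] [T2Space F]
    [Group G] [TopologicalSpace G] [Countable J] (ι : F →+* ℂ) (Φ : ℕ → G) (hΦ : IsFrobenius Φ)
    (w : ℝ) (N : J → ℕ) (ρ : (j : J) → G →* Matrix (Fin (N j)) (Fin (N j)) F)
    (hρ : ∀ j, Continuous (ρ j)) (S : J → Finset ℕ) (hw : ∀ j, HasWeight ι Φ (ρ j) (S j) w)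
    (hirr : ∀ j, (rep (ρ j)).IsIrreducible)
    (hne : ∀ i j, i ≠ j → IsEmpty ((rep (ρ i)).Equiv (rep (ρ j)))) :
    ∃ l : J → ℝ → ℂ,
      (∃ E : Set ℝ, dimH E = 0 ∧ ∀ j, ∀ τ : ℝ, τ ∉ E → ∀ C : ℝ,
        Tendsto (partialL ι Φ (ρ j) (S j)) (𝓝[angle w τ C] (((1 + w / 2 : ℝ) : ℂ) + τ * Complex.I))
          (𝓝 (l j τ))) ∧
      ∀ K : Subfield ℂ, Countable K → ∀ᵐ τ : ℝ, AlgebraicIndependent K (numbers l τ) := by
  have hF : CharZero F := ι.charZero
  choose α hα htr hfac using fun j =>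
    Pool.Agent.TH345.ET.exists_norm_eig (fun p => (ρ j (Φ p)).map ι) (S j) w (hw j)
  have hb := fun j => Pool.Agent.TH339.MP.norm_bα (α := α j) (S := ∅) fun p hp _ i => hα j p hp i
  have hdim := fun j => (Pool.Agent.TH339.MP.boundary (hb j)).2.1
  have hL : ∀ j, ∀ s : ℂ, 1 < s.re → partialL ι Φ (ρ j) (S j) (s + ((w / 2 : ℝ) : ℂ)) =
      Pool.Agent.TH345.ET.EL α j s := by
    intro j s hs
    unfold Pool.Agent.TH345.ET.EL
    rw [← (Pool.Agent.TH339.MP.hasProd_α (α := α j) (S := ∅) (fun p hp _ i => hα j p hp i)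
      hs).tprod_eq]
    unfold partialL
    refine tprod_congr fun p => ?_
    unfold Pool.Agent.TH339.MP.fα
    rw [if_neg (Finset.notMem_empty _)]
    have h1 := hfac j s p p.2
    by_cases hpS : (p : ℕ) ∈ S j
    · rw [if_pos hpS] at h1 ⊢
      exact h1
    · rw [if_neg hpS] at h1 ⊢
      exact h1
  have hMI : Pool.Agent.TH345.ET.MI α := by
    refine Pool.Agent.TH345.ET.MI_of_trace fun c hc => ?_
    obtain ⟨S₀, hS₀⟩ := hc
    refine Pool.Agent.TH345.ET.indep_of_irr ρ hirr hne c ?_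
    refine Pool.Agent.TH345.ET.dense_trace Φ hΦ ρ hρ c (S₀ ∪ c.support.biUnion S) ?_
    intro p hp hpS
    rw [Finset.mem_union, not_or, Finset.mem_biUnion] at hpS
    have h1 := hS₀ p hp hpS.1
    have h2 : ∀ j ∈ c.support, (((c j : ℤ) : ℂ) * ∑ i, α j p i) =
        (p : ℂ) ^ (-((w / 2 : ℝ) : ℂ)) * (((c j : ℤ) : ℂ) * ι (ρ j (Φ p)).trace) := by
      intro j hj
      rw [htr j p hp fun h => hpS.2 ⟨j, hj, h⟩]
      have h3 : ((ρ j (Φ p)).map ι).trace = ι (ρ j (Φ p)).trace := by
        rw [Matrix.trace, Matrix.trace, map_sum]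
        rfl
      rw [h3]
      ring
    unfold Finsupp.sum at h1 ⊢
    rw [Finset.sum_congr rfl h2, ← Finset.mul_sum, mul_eq_zero] at h1
    have hne0 : (p : ℂ) ^ (-((w / 2 : ℝ) : ℂ)) ≠ 0 := by
      rw [Complex.cpow_ne_zero_iff]
      exact Or.inl (Nat.cast_ne_zero.2 hp.ne_zero)
    have h4 := h1.resolve_left hne0
    apply ι.injective
    rw [map_zero, map_sum, ← h4]
    refine Finset.sum_congr rfl fun j _ => ?_
    rw [map_mul, map_intCast]
  refine ⟨fun j τ => Complex.exp (Pool.Agent.TH339.MP.bl (Pool.Agent.TH339.MP.bα (α j) ∅) τ),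
    ⟨⋃ j, Pool.Agent.W350.Edge.divSet (Pool.Agent.TH339.MP.ap
      (Pool.Agent.TH339.MP.bα (α j) ∅)), ?_, fun j τ hτ C => ?_⟩, fun K hK => ?_⟩
  · rw [dimH_iUnion]
    simp [hdim]
  · have hτ' : τ ∉ Pool.Agent.W350.Edge.divSet (Pool.Agent.TH339.MP.ap
        (Pool.Agent.TH339.MP.bα (α j) ∅)) := fun h => hτ (Set.mem_iUnion.2 ⟨j, h⟩)
    have h5 := Pool.Agent.TH345.ET.EL_angle hα j hτ' C
    have h6 : Tendsto (fun s : ℂ => s - (((1 + w / 2 : ℝ) : ℂ) + τ * Complex.I))
        (𝓝[angle w τ C] (((1 + w / 2 : ℝ) : ℂ) + τ * Complex.I))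
        (𝓝[{z : ℂ | 0 < z.re ∧ ‖z‖ ≤ C * z.re}] 0) := by
      rw [tendsto_nhdsWithin_iff]
      constructor
      · have h7 : Tendsto (fun s : ℂ => s - (((1 + w / 2 : ℝ) : ℂ) + τ * Complex.I))
            (𝓝 (((1 + w / 2 : ℝ) : ℂ) + τ * Complex.I))
            (𝓝 ((((1 + w / 2 : ℝ) : ℂ) + τ * Complex.I) -
              (((1 + w / 2 : ℝ) : ℂ) + τ * Complex.I))) :=
          (continuous_id.sub continuous_const).tendsto _
        rw [sub_self] at h7
        exact h7.mono_left nhdsWithin_le_nhds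
      · filter_upwards [self_mem_nhdsWithin] with s hs
        have hre : (s - (((1 + w / 2 : ℝ) : ℂ) + τ * Complex.I)).re = s.re - (1 + w / 2) := by
          simp
        refine ⟨?_, ?_⟩
        · rw [hre]
          linarith [hs.1]
        · rw [hre]
          exact hs.2
    refine (h5.comp h6).congr' ?_
    filter_upwards [self_mem_nhdsWithin] with s hs
    simp only [Function.comp_apply]
    have h8 : 1 < (s - ((w / 2 : ℝ) : ℂ)).re := by
      rw [Complex.sub_re, Complex.ofReal_re]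
      linarith [hs.1]
    have h9 := hL j _ h8
    rw [sub_add_cancel] at h9
    rw [h9]
    congr 1
    push_cast
    ring
  · refine Pool.Agent.TH345.ET.core (J := J) (N := N) (α := α) hα hMI
      (l := fun j τ => Complex.exp (Pool.Agent.TH339.MP.bl (Pool.Agent.TH339.MP.bα (α j) ∅) τ))
      (fun j => ?_) K
    filter_upwards [Pool.Agent.TH339.MP.ae_notMem (hb j)] with τ hτ
    have h5 := Pool.Agent.TH345.ET.EL_angle hα j hτ 1
    have h6 : Tendsto (fun σ : ℝ => ((σ - 1 : ℝ) : ℂ)) (𝓝[>] 1)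
        (𝓝[{z : ℂ | 0 < z.re ∧ ‖z‖ ≤ 1 * z.re}] 0) := by
      rw [tendsto_nhdsWithin_iff]
      constructor
      · have h7 : Continuous fun σ : ℝ => ((σ - 1 : ℝ) : ℂ) := by fun_prop
        have h8 := h7.tendsto 1
        simp only [sub_self, Complex.ofReal_zero] at h8
        exact h8.mono_left nhdsWithin_le_nhds
      · filter_upwards [self_mem_nhdsWithin] with σ hσ
        have hσ' : (1 : ℝ) < σ := hσ
        refine ⟨?_, ?_⟩
        · rw [Complex.ofReal_re]
          linarith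
        · rw [Complex.norm_real, Real.norm_of_nonneg (by linarith), Complex.ofReal_re, one_mul]
    refine (h5.comp h6).congr fun σ => ?_
    simp only [Function.comp_apply]
    congr 1
    push_cast
    ring

end Pool.Agent.Results.MP_ec4e4b_nt.EdgeAlgebraicIndependence
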