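import Pool.Agent.TH339.MP.V5

/-!
# The distribution of the values of motivic L-functions on the edge of the half-plane of convergence

Let `M_j` (`j` in a finite set `J`) be motives over a number field `K`, pure of weight `w_j`, and
`P_{j,v}(T) = det(1 - Frob_v T | M_{j,ℓ}^{I_v})`, read in the complex numbers.  The Euler products
`L(s, M_j)` converge for `Re s > 1 + w_j/2`; for a polarized motive as in the formula of Bloch and Kato
the weight is `-1`, the edge is the line `Re s = 1/2`, and nothing is known about continuation beyond it.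
The theorem gives the joint limiting distribution of the boundary values on the edges.  It is the law of
the L-functions twisted by a random completely multiplicative function.
-/

set_option autoImplicit false

namespace Pool.Agent.Results.MP_ec4e4b_nt.EdgeValueDistribution

open Filter Topology MeasureTheory NumberField IsDedekindDomain Polynomial
open Pool.Agent.TH339.MP (Om PM val)

section
variable {K : Type} [Field K] [NumberField K]

/-- `q_v`. -/
noncomputable def q (v : HeightOneSpectrum (𝓞 K)) : ℕ := Ideal.absNorm v.asIdeal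

/-- The Euler product `L(s) = ∏_v P_v(q_v^{-s})⁻¹` over the primes `v` of `K`. -/
noncomputable def L (P : HeightOneSpectrum (𝓞 K) → ℂ[X]) (s : ℂ) : ℂ :=
  ∏' v : HeightOneSpectrum (𝓞 K), ((P v).eval ((q v : ℂ) ^ (-s)))⁻¹

/-- The twist `L(s, ω) = ∏_v P_v(ω(q_v) q_v^{-s})⁻¹` by the completely multiplicative function `ω`. -/
noncomputable def twistL (P : HeightOneSpectrum (𝓞 K) → ℂ[X]) (ω : Om) (s : ℂ) : ℂ :=
  ∏' v : HeightOneSpectrum (𝓞 K), ((P v).eval (val ω (q v) * (q v : ℂ) ^ (-s)))⁻¹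

/-- The polynomials `P_v` have constant term `1`, degree at most `N`, and the inverses of their zeros
have absolute value at most `q_v^{w/2}`.  For `P_v = det(1 - Frob_v T | M_ℓ^{I_v})`, `M` pure of weight
`w` and rank `N`, this is the theorem of Deligne at the primes of good reduction; at the finitely many
other primes one may put `P_v = 1`. -/
structure HasWeights (P : HeightOneSpectrum (𝓞 K) → ℂ[X]) (N : ℕ) (w : ℤ) : Prop where
  coeff_zero : ∀ v, (P v).coeff 0 = 1
  natDegree_le : ∀ v, (P v).natDegree ≤ N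
  le_norm : ∀ v, ∀ z : ℂ, (P v).IsRoot z → (q v : ℝ) ^ (-((w : ℝ) / 2)) ≤ ‖z‖

end

/-- The angle `|s - s₀| ≤ C Re(s - s₀)`, `Re s > Re s₀`. -/
def angle (s₀ : ℂ) (C : ℝ) : Set ℂ := {s : ℂ | s₀.re < s.re ∧ ‖s - s₀‖ ≤ C * (s - s₀).re}

/-- **Joint limiting distribution on the edges.**  For `j` in a finite set `J` let the `P_{j,v}` have
weight `w_j` and degree at most `N_j`.

* There is a measurable `l : ℝ → ℂ^J` such that, for all real `τ` outside a set of Hausdorff dimension
  `0` and all `j`, `l_j(τ) ≠ 0` and `L_j(s) → l_j(τ)` as `s → 1 + w_j/2 + iτ` in any angle.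
* There is a random variable `R` with values in `ℂ^J` on the space of the completely multiplicative
  functions `ω` of absolute value one such that, for almost all `ω` and all `j`, `R_j(ω) ≠ 0` and
  `L_j(s, ω) → R_j(ω)` as `s → 1 + w_j/2` in any angle.
* For all bounded continuous functions `φ` on `ℂ^J` the mean value of `φ(l(τ))` over `a ≤ τ ≤ a + T`
  tends to the expectation of `φ(R)` as `T → ∞`, uniformly for all real `a`. -/
theorem result (K : Type) [Field K] [NumberField K] (J : Type) [Fintype J] (N : J → ℕ) (w : J → ℤ)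
    (P : J → HeightOneSpectrum (𝓞 K) → ℂ[X]) (hP : ∀ j, HasWeights (P j) (N j) (w j)) :
    ∃ l : ℝ → J → ℂ, AEMeasurable l ∧
      (∃ E : Set ℝ, dimH E = 0 ∧ ∀ τ : ℝ, τ ∉ E → ∀ j, l τ j ≠ 0 ∧ ∀ C : ℝ,
        Tendsto (L (P j)) (𝓝[angle (1 + (w j : ℂ) / 2 + τ * Complex.I) C]
          (1 + (w j : ℂ) / 2 + τ * Complex.I)) (𝓝 (l τ j))) ∧
      ∃ R : Om → J → ℂ, AEMeasurable R PM ∧
        (∀ᵐ ω ∂PM, ∀ j, R ω j ≠ 0 ∧ ∀ C : ℝ,
          Tendsto (twistL (P j) ω) (𝓝[angle (1 + (w j : ℂ) / 2) C] (1 + (w j : ℂ) / 2))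
            (𝓝 (R ω j))) ∧
        ∀ φ : BoundedContinuousFunction (J → ℂ) ℝ, ∀ ε : ℝ, 0 < ε → ∃ T₀ : ℝ, 0 < T₀ ∧
          ∀ T : ℝ, T₀ ≤ T → ∀ a : ℝ,
            |(1 / T) * (∫ τ in a..(a + T), φ (l τ)) - ∫ ω, φ (R ω) ∂PM| ≤ ε := by
  have h1 : ∀ j, ∃ b : Pool.Agent.TH339.MP.PP → ℂ,
      (∀ x, ‖b x‖ ≤ ((Module.finrank ℚ K : ℝ) * N j) / (x.2 + 1 : ℕ)) ∧
      ∀ ω : Om, ∀ s : ℂ, 1 + (w j : ℝ) / 2 < s.re →
        HasProd (fun v => ((P j v).eval (val ω (q v) * (q v : ℂ) ^ (-s)))⁻¹)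
          (Complex.exp (Pool.Agent.TH339.MP.FF (Pool.Agent.TH339.MP.tb b ω)
            (s - (((w j : ℝ) / 2 : ℝ) : ℂ)))) := fun j =>
    Pool.Agent.TH339.MP.hasProd_twist (K := K) (w j : ℝ) (P j) (hP j).coeff_zero
      (hP j).natDegree_le (hP j).le_norm
  choose b hb hL using h1
  -- the values
  have hLt : ∀ j, ∀ ω : Om, ∀ s : ℂ, 1 + (w j : ℝ) / 2 < s.re → twistL (P j) ω s =
      Complex.exp (Pool.Agent.TH339.MP.FF (Pool.Agent.TH339.MP.tb (b j) ω)
        (s - (((w j : ℝ) / 2 : ℝ) : ℂ))) := fun j ω s hs => (hL j ω s hs).tprod_eq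
  have hL1 : ∀ j, ∀ s : ℂ, L (P j) s = twistL (P j) 1 s := by
    intro j s
    unfold L twistL
    refine tprod_congr fun v => ?_
    rw [Pool.Agent.TH339.MP.val_one, one_mul]
  have hre : ∀ j, ∀ τ : ℝ, (1 + (w j : ℂ) / 2 + τ * Complex.I).re = 1 + (w j : ℝ) / 2 := by
    intro j τ
    have e1 : (1 + (w j : ℂ) / 2 + τ * Complex.I) =
        ((1 + (w j : ℝ) / 2 : ℝ) : ℂ) + τ * Complex.I := by
      push_cast
      ring
    rw [e1]
    simp
  refine ⟨fun τ j => Complex.exp (Pool.Agent.TH339.MP.bl (b j) τ), ?_, ?_,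
    fun ω j => Complex.exp (Pool.Agent.TH339.MP.RR (b j) ω), ?_, ?_, ?_⟩
  · exact aemeasurable_pi_lambda _ fun j =>
      Complex.measurable_exp.comp_aemeasurable (Pool.Agent.TH339.MP.boundary (hb j)).1
  · refine ⟨⋃ j, Pool.Agent.W350.Edge.divSet (Pool.Agent.TH339.MP.ap (b j)),
      Pool.Agent.TH339.MP.dimH_union _ fun j => (Pool.Agent.TH339.MP.boundary (hb j)).2.1,
      fun τ hτ j => ⟨Complex.exp_ne_zero _, fun C => ?_⟩⟩
    have hτj : τ ∉ Pool.Agent.W350.Edge.divSet (Pool.Agent.TH339.MP.ap (b j)) := fun h =>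
      hτ (Set.mem_iUnion.2 ⟨j, h⟩)
    have h2 := Pool.Agent.TH339.MP.tendsto_angle (hb j) hτj (w j : ℝ) C
      (1 + (w j : ℂ) / 2 + τ * Complex.I) (by push_cast; rfl)
    have h3 := (Complex.continuous_exp.tendsto _).comp h2
    refine h3.congr' ?_
    filter_upwards [self_mem_nhdsWithin] with s hs
    have h4 : (1 + (w j : ℂ) / 2 + τ * Complex.I).re < s.re := hs.1
    rw [hre] at h4
    simp only [Function.comp_apply]
    rw [hL1, hLt j 1 s h4, Pool.Agent.TH339.MP.tb_one]
  · exact aemeasurable_pi_lambda _ fun j =>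
      Complex.measurable_exp.comp_aemeasurable (Pool.Agent.TH339.MP.aemeasurable_RR (hb j))
  · have h2 : ∀ᵐ ω ∂PM, ∀ j, (0 : ℝ) ∉
        Pool.Agent.W350.Edge.divSet (Pool.Agent.TH339.MP.ap (Pool.Agent.TH339.MP.tb (b j) ω)) :=
      ae_all_iff.2 fun j => Pool.Agent.TH339.MP.ae_good (hb j)
    filter_upwards [h2] with ω hω j
    refine ⟨Complex.exp_ne_zero _, fun C => ?_⟩
    have h3 := Pool.Agent.TH339.MP.tendsto_angle (Pool.Agent.TH339.MP.tb_bound (hb j) ω) (hω j)
      (w j : ℝ) C (1 + (w j : ℂ) / 2) (by push_cast; simp)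
    have h4 := (Complex.continuous_exp.tendsto _).comp h3
    refine h4.congr' ?_
    filter_upwards [self_mem_nhdsWithin] with s hs
    have h5 : (1 + (w j : ℂ) / 2).re < s.re := hs.1
    have h6 := hre j 0
    rw [Complex.ofReal_zero, zero_mul, add_zero] at h6
    rw [h6] at h5
    simp only [Function.comp_apply]
    rw [hLt j ω s h5]
  · intro φ
    have hcont : Continuous fun z : J → ℂ => φ fun j => Complex.exp (z j) :=
      φ.continuous.comp (continuous_pi fun j => Complex.continuous_exp.comp (continuous_apply j))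
    exact Pool.Agent.TH339.MP.mean_all (M := fun j => (Module.finrank ℚ K : ℝ) * N j) hb hcont
      (C := ‖φ‖) fun z => φ.norm_coe_le_norm _

end Pool.Agent.Results.MP_ec4e4b_nt.EdgeValueDistribution
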