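import Pool.Agent.TH270.MS.Eul
import Pool.Agent.TH652.COL.NF

/-!
# The sharp Euler product at the centre in mean square, pure motives of weight `-1`

Let `M` be a polarized Chow motive over a number field `K`, pure of weight `-1`, with Euler factors
`P_v`, and let `p_k(v) = Tr(Frob_v^k)` be the sum of the `k`-th powers of the inverse roots of `P_v`, so
that `log L(s, M) = ∑ p_k(v) / (k q_v^{ks})` for `Re s > 1/2`. At the centre `s = 0` consider the partial
Euler products, over all prime powers `v^k` with `q_v^k ≤ X`,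

`Π(X) = exp ∑_{q_v^k ≤ X} p_k(v) / k`.

If `L(s, M)` has order `r` and leading coefficient `A` at `s = 0`, one expects, as for the original
conjecture of Birch and Swinnerton-Dyer, `Π(X) ~ A (e^γ log X)^{-r}`, that is `D(X) → 0` for
`D(X) = log (Π(X) (e^γ log X)^r / A)`. This implies the Riemann hypothesis for `L(s, M)` but is not known
to follow from it. Here it is shown that in MEAN SQUARE the two are equivalent. Let `F` be a continuation
of `L(s, M)`, meromorphic for `Re s > -η` (some `η > 0`) with at most one pole, at `s = 0`, and with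
polynomial growth. Then the order of `F` at `0` is an integer, and

* for every integer `r` (the number `dim H^1_f - dim H^0`) are equivalent:
  - `F` has order `r` at `s = 0` and no zeros with `Re s > 0`;
  - for some `A > 0` the integral `∫_e^∞ D(X)² dX/X` is finite;
  - `∫_e^X |log Π(x) + r log log x| dx/x ≤ B log X` for some `B` and all large `X`;
* for every integer `r` and every `A > 0` are equivalent:
  - `F(s) / s^r → A` as `s → 0`, and `F` has no zeros with `Re s > 0`;
  - `∫_e^∞ D(X)² dX/X` is finite;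
  - `(1 / log X) ∫_e^X |D(x)| dx/x → 0`;
* in this case, for every `ε > 0`, the set of all `X > e` with `|D(X)| > ε` has finite logarithmic
  measure.
-/

set_option autoImplicit false

open Filter Topology NumberField IsDedekindDomain Polynomial MeasureTheory
open scoped ENNReal

namespace Pool.Agent.Results.MP_ec4e4b_nt.MeanSquareLaw

section definitions

variable {K : Type} [Field K] [NumberField K]

/-- The norm `q_v` of a prime. -/
noncomputable def q (v : HeightOneSpectrum (𝓞 K)) : ℕ := Ideal.absNorm v.asIdeal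

/-- The Euler factors of a motive which is pure of weight `-1`: real polynomials with constant term `1`
and bounded degrees whose complex roots have absolute values `≥ q_v^{1/2}` (`= q_v^{1/2}` at the good
primes). -/
structure IsLocalData (P : HeightOneSpectrum (𝓞 K) → ℝ[X]) : Prop where
  const : ∀ v, (P v).coeff 0 = 1
  deg : ∃ N : ℕ, ∀ v, (P v).natDegree ≤ N
  pure : ∀ v, ∀ ρ : ℂ, ((P v).map (algebraMap ℝ ℂ)).IsRoot ρ → (q v : ℝ) ^ ((1 : ℝ) / 2) ≤ ‖ρ‖

/-- The `L`-function, the product of the `P_v(q_v^{-s})⁻¹`; it is used for `Re s > 1/2`, where the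
product converges absolutely. -/
noncomputable def L (P : HeightOneSpectrum (𝓞 K) → ℝ[X]) (s : ℂ) : ℂ :=
  ∏' v : HeightOneSpectrum (𝓞 K), (((P v).map (algebraMap ℝ ℂ)).eval ((q v : ℂ) ^ (-s)))⁻¹

/-- `F` is a continuation of `L`: for some `η > 0` it is holomorphic for `Re s > -η`, `s ≠ 0`, with
`|s^k F(s)| ≤ C (1 + |s|)^κ` there, and equal to `L` for `Re s > 1/2`. -/
def Continues (P : HeightOneSpectrum (𝓞 K) → ℝ[X]) (F : ℂ → ℂ) : Prop :=
  (∃ (η C : ℝ) (k κ : ℕ), 0 < η ∧ ∀ s : ℂ, -η < s.re → s ≠ 0 →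
    DifferentiableAt ℂ F s ∧ ‖s ^ k * F s‖ ≤ C * (1 + ‖s‖) ^ κ) ∧
  ∀ s : ℂ, 1 / 2 < s.re → F s = L P s

/-- No zeros with `Re s > 0`. -/
def NoZeros (F : ℂ → ℂ) : Prop := ∀ s : ℂ, 0 < s.re → F s ≠ 0

/-- `p_k(v)`: the sum of the `k`-th powers of the inverses of the complex roots of `P_v` (a real
number), the trace of the `k`-th power of the Frobenius. -/
noncomputable def powerSum (P : HeightOneSpectrum (𝓞 K) → ℝ[X]) (k : ℕ)
    (v : HeightOneSpectrum (𝓞 K)) : ℝ :=
  ((((P v).map (algebraMap ℝ ℂ)).roots.map fun ρ => (ρ⁻¹) ^ k).sum).re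

/-- `log Π(X)`: the sum over the powers `v^k`, `k = j + 1 ≥ 1`, of the primes with `q_v^k ≤ X` of the
numbers `p_k(v) / k`. -/
noncomputable def logProduct (P : HeightOneSpectrum (𝓞 K) → ℝ[X]) (X : ℝ) : ℝ :=
  ∑ᶠ (p : HeightOneSpectrum (𝓞 K) × ℕ) (_ : (q p.1 : ℝ) ^ (p.2 + 1) ≤ X),
    powerSum P (p.2 + 1) p.1 / ((p.2 : ℝ) + 1)

/-- `D(X) = log (Π(X) (e^γ log X)^r / A)`. -/
noncomputable def deviation (P : HeightOneSpectrum (𝓞 K) → ℝ[X]) (r : ℤ) (A X : ℝ) : ℝ :=
  logProduct P X + r * (Real.eulerMascheroniConstant + Real.log (Real.log X)) - Real.log A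

end definitions

section proofs

open Pool.Agent.TH270.SH Pool.Agent.TH270.MS Pool.Agent.TH942.ES

variable {K : Type} [Field K] [NumberField K] {P : HeightOneSpectrum (𝓞 K) → ℝ[X]}

theorem logProduct_eq {N : ℕ} (h : Eul P N 0) (X : ℝ) :
    logProduct P X = Pl nmK (alB P N 0) X := by
  unfold logProduct Pl
  refine finsum_congr fun p => ?_
  refine finsum_congr fun _ => ?_
  rw [h.cP_eq p, Real.rpow_zero, one_pow, mul_one]
  rfl

theorem deviation_eq {N : ℕ} (h : Eul P N 0) (r : ℤ) (A X : ℝ) :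
    deviation P r A X = Dv nmK (alB P N 0) r A X := by
  unfold deviation Dv
  rw [logProduct_eq h]

end proofs

/-- **The sharp Euler product in mean square.** -/
theorem result (K : Type) [Field K] [NumberField K] (P : HeightOneSpectrum (𝓞 K) → ℝ[X])
    (hP : IsLocalData P) (F : ℂ → ℂ) (hF : Continues P F) :
    (MeromorphicAt F 0 ∧ ∃ m : ℤ, meromorphicOrderAt F 0 = m) ∧
    ∀ r : ℤ,
      List.TFAE [
        NoZeros F ∧ meromorphicOrderAt F 0 = r,
        ∃ A : ℝ, 0 < A ∧
          IntegrableOn (fun X : ℝ => deviation P r A X ^ 2 / X) (Set.Ioi (Real.exp 1)),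
        ∃ B : ℝ, ∀ᶠ X : ℝ in atTop,
          ∫ x in Real.exp 1..X, |logProduct P x + r * Real.log (Real.log x)| / x ≤
            B * Real.log X] ∧
      ∀ A : ℝ, 0 < A →
        List.TFAE [
          NoZeros F ∧ Tendsto (fun s => F s / s ^ r) (𝓝[≠] 0) (𝓝 (A : ℂ)),
          IntegrableOn (fun X : ℝ => deviation P r A X ^ 2 / X) (Set.Ioi (Real.exp 1)),
          Tendsto (fun X : ℝ => (∫ x in Real.exp 1..X, |deviation P r A x| / x) / Real.log X)
            atTop (𝓝 0)] ∧
        (NoZeros F → Tendsto (fun s => F s / s ^ r) (𝓝[≠] 0) (𝓝 (A : ℂ)) →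
          ∀ ε : ℝ, 0 < ε →
            ∫⁻ X in {X : ℝ | Real.exp 1 < X ∧ ε < |deviation P r A X|}, ENNReal.ofReal (1 / X) <
              ⊤) := by
  obtain ⟨N, hN⟩ := hP.deg
  have h : Pool.Agent.TH270.SH.Eul P N 0 := ⟨hP.const, hN, fun v ρ hρ => by
    rw [sub_zero]
    exact hP.pure v ρ hρ⟩
  obtain ⟨⟨η, C, k, κ, hη, hd⟩, he⟩ := hF
  obtain ⟨G₀, C', H⟩ := Pool.Agent.TH270.MS.mc (F := F) (C := C) (k := k) (κ := κ) h hη
    (fun s hs hs0 => (hd s (by linarith) (by simpa using hs0)).1)
    (fun s hs hs0 => by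
      rw [Complex.ofReal_zero, sub_zero]
      exact (hd s (by linarith) (by simpa using hs0)).2)
    (fun s hs => he s (by linarith))
  have hF0 : (fun s : ℂ => F (((0 : ℝ) : ℂ) + s)) = F := by
    funext s
    rw [Complex.ofReal_zero, zero_add]
  rw [hF0] at H
  refine ⟨H.order, fun r => ⟨?_, fun A hA => ⟨?_, fun h1 h2 ε hε => ?_⟩⟩⟩
  · have t := H.tfae_order r
    simp only [deviation_eq h, logProduct_eq h]
    exact t
  · have t := H.tfae_lead r hA
    simp only [deviation_eq h]
    exact t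
  · have t := H.tfae_lead r hA
    have t1 : ((∀ s : ℂ, 0 < s.re → F s ≠ 0) ∧
        Tendsto (fun s => F s / s ^ r) (𝓝[≠] 0) (𝓝 (A : ℂ))) ↔ _ := t.out 0 1
    simp only [deviation_eq h]
    exact Pool.Agent.TH270.MS.fin_log_meas (t1.1 ⟨h1, h2⟩) hε
      (Pool.Agent.TH270.MS.dv_meas H r A ε)

end Pool.Agent.Results.MP_ec4e4b_nt.MeanSquareLaw
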